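import Pool.Agent.H688R2.VSP.PolyInst
import Pool.Agent.H671R2.SubsetSum

/-!
Scheduling a single vehicle on a path with release times and positive handling times is `NP`-hard.
-/

namespace Pool.Agent.Results.MP_6e49ee_lc.NPHard

theorem result : Pool.Agent.NPC.NPHardP Pool.Agent.H688R2.VSP.PathVSP :=
  ((Pool.Agent.NPC.R671.SS.hardPr_SubsetSum.trans Pool.Agent.H688R2.VSP.poly_inst
    (Pr' := fun _ => True) (fun _ _ => trivial)
    (fun x hx => Pool.Agent.H688R2.VSP.inst_iff x (fun a ha => (hx.1 a ha).1))).toHardI).toNPHardP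

end Pool.Agent.Results.MP_6e49ee_lc.NPHard
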